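import Pool.Agent.Run7.h891.SharpOfficial

/-! Level by level: all minor-closed families of graphs of rank at most `α` are Borel if and only
if the rooted countable graphs of rank smaller than `α` are well-quasi-ordered under rooted
minors. -/

set_option autoImplicit false

open Ordinal

namespace Pool.Agent.Results.MP_6ccddd_lc.LevelBorelIffRootedWqo

open Run7.h891

theorem result (α : Ordinal.{0}) (hα : α < ω₁) :
    (∀ C : Set (SimpleGraph ℕ), MinorClosed C → (∀ G ∈ C, HasRankLE α G) → BorelFamily C) ↔
    ∀ (n : ℕ) (V : ℕ → Type) (_ : ∀ i, Countable (V i)) (G : ∀ i, SimpleGraph (V i))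
      (r : ∀ i, Fin n ↪ V i), (∀ i, ∃ β < α, HasRankLE β (G i)) →
      ∃ i j, i < j ∧ IsRootedMinor (G i) (r i) (G j) (r j) :=
  (borel_iff_rooted_wqo hα).trans codeWqo_iff

end Pool.Agent.Results.MP_6ccddd_lc.LevelBorelIffRootedWqo
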