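import Pool.Agent.Run7.h891.SharpRel

/-! If some minor-closed family of graphs of rank at most `α` is not Borel, then the minor
relation on the graphs of rank at most `α` is not Borel and has complete analytic sections in
both directions. -/

set_option autoImplicit false

open Ordinal

namespace Pool.Agent.Results.MP_6ccddd_lc.MinorRelationDichotomy

open Run7.h891

theorem result (α : Ordinal.{0}) (hα : α < ω₁) :
    [∃ C : Set (SimpleGraph ℕ), MinorClosed C ∧ (∀ G ∈ C, HasRankLE α G) ∧ ¬ BorelFamily C,
      ¬ BorelRelation (minorRelation α),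
      ∃ G : SimpleGraph ℕ, HasRankLE α G ∧ Sigma11Complete {H | IsMinor H G},
      ∃ G : SimpleGraph ℕ, HasRankLE α G ∧
        Sigma11Complete {H | HasRankLE α H ∧ IsMinor G H}].TFAE :=
  relation_tfae hα

end Pool.Agent.Results.MP_6ccddd_lc.MinorRelationDichotomy
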