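import Pool.Agent.Run7.h891.SharpPerfect

/-! A non-Borel minor-closed family of graphs of rank at most `α` exists if and only if there is a
perfect antichain of graphs of rank at most `α`, if and only if there is the maximal possible
number of minor-closed families, if and only if such families have arbitrarily high
complexity. -/

set_option autoImplicit false

open Ordinal Cardinal

namespace Pool.Agent.Results.MP_6ccddd_lc.PerfectAntichain

open Run7.h891

theorem result (α : Ordinal.{0}) (hα : α < ω₁) :
    [∃ C ∈ minorClosedFamilies α, ¬ BorelFamily C,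
      ¬ CountablyManyTwinClasses α,
      ∃ Φ : (ℕ → Bool) → SimpleGraph ℕ, @Continuous _ _ _ graphTopology Φ ∧
        (∀ t, HasRankLE α (Φ t)) ∧ ∀ t t', t ≠ t' → ¬ IsMinor (Φ t) (Φ t'),
      #(minorClosedFamilies α) = 2 ^ 𝔠,
      ∀ A : Set (ℕ → Bool), ∃ C ∈ minorClosedFamilies α, ∃ Φ : (ℕ → Bool) → SimpleGraph ℕ,
        @Continuous _ _ _ graphTopology Φ ∧ Φ ⁻¹' C = A].TFAE :=
  perfect_tfae hα

end Pool.Agent.Results.MP_6ccddd_lc.PerfectAntichain
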