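import Pool.Agent.Run7.h891.Coanalytic

/-! The known dichotomy for minor-closed families of rayless forests holds for all minor-closed
families of rayless graphs if and only if the question of MP_6ccddd_lc has a negative answer, if
and only if the countable rayless graphs are well-quasi-ordered, if and only if they are
better-quasi-ordered. -/

set_option autoImplicit false

open Ordinal

namespace Pool.Agent.Results.MP_6ccddd_lc.RaylessDichotomyIffWqo

open Run7.h891

theorem result :
    [¬ ∃ C : Set (SimpleGraph ℕ), (∀ G ∈ C, Rayless G) ∧ MinorClosed C ∧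
      (∃ α < ω₁, ∀ G ∈ C, HasRankLE α G) ∧ ¬ BorelFamily C,
      ∀ C : Set (SimpleGraph ℕ), (∀ G ∈ C, Rayless G) → MinorClosed C →
        (BorelFamily C ↔ ¬ ContainsRaylessForests C),
      ∀ C : Set (SimpleGraph ℕ), (∀ G ∈ C, Rayless G) → MinorClosed C →
        BorelFamily C ∨ Pi11Complete C,
      ∀ C : Set (SimpleGraph ℕ), (∀ G ∈ C, Rayless G) → MinorClosed C → CoanalyticFamily C,
      WellQuasiOrdered MinorLE, BetterQuasiOrdered MinorLE].TFAE :=
  big_tfae

end Pool.Agent.Results.MP_6ccddd_lc.RaylessDichotomyIffWqo
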